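import Pool.Agent.NPC.Defs
import Mathlib

/-!
# Rigid matrices: definitions
-/

namespace Pool.Agent.H636R2.Rig

/-- `sp S`: the number of nonzero entries of a matrix. -/
noncomputable def sp {K : Type*} [Zero K] {n : ℕ} (S : Matrix (Fin n) (Fin n) K) : ℕ :=
  Nat.card {k : Fin n × Fin n // S k.1 k.2 ≠ 0}

/-- `A` is `(r, s)`-rigid: there is no decomposition `A = R + S` with `rank R ≤ r` and
`sp S ≤ s`. -/
def Rigid {K : Type*} [Field K] {n : ℕ} (A : Matrix (Fin n) (Fin n) K) (r s : ℕ) : Prop :=
  ¬ ∃ R S : Matrix (Fin n) (Fin n) K, A = R + S ∧ R.rank ≤ r ∧ sp S ≤ s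

/-- The polynomial with integer coefficients given by a sparse list of pairs
(exponent, coefficient). -/
noncomputable def polyOf (c : List (ℕ × ℤ)) : Polynomial ℚ :=
  (c.map fun m => Polynomial.monomial m.1 (m.2 : ℚ)).sum

/-- A description `(c, lo, hi)` describes the real number `x`: `c` is the list of the monomials of
the minimal polynomial of `x` and the open interval `(lo, hi)` isolates `x` from the other
real roots. -/
def Describes (c : List (ℕ × ℤ) × ℕ × ℕ) (x : ℝ) : Prop :=
  minpoly ℚ x = polyOf c.1 ∧ ((c.2.1 : ℝ) < x ∧ x < c.2.2) ∧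
    ∀ y : ℝ, (c.2.1 : ℝ) < y → y < c.2.2 → Polynomial.aeval y (polyOf c.1) = 0 → y = x

/-- Explicit families of real matrices: a polynomial-time (Turing machine) algorithm outputs, on
input `n` in unary, the list of the descriptions of the entries `(i, j)`, at position `n * i + j`;
all numbers are written in binary.  Every entry is an algebraic number. -/
def Explicit (A : (n : ℕ) → Matrix (Fin n) (Fin n) ℝ) : Prop :=
  ∃ D : ℕ → List (List (ℕ × ℤ) × ℕ × ℕ),
    (∃ f : List Bool → List Bool, Pool.Agent.NPC.PolyTime f ∧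
      ∀ n, f (List.replicate n true) = Pool.Agent.NPC.bits (D n)) ∧
    ∀ (n : ℕ) (i j : Fin n), ∃ c, (D n)[n * (i : ℕ) + j]? = some c ∧ Describes c (A n i j)

/-- The family whose entry `(i, j)` is obtained from the prime number of index `n * i + j` by
extracting the square root `t n` times, that is, its positive `2 ^ (t n)`-th root. -/
noncomputable def rootMatrix (t : ℕ → ℕ) (n : ℕ) : Matrix (Fin n) (Fin n) ℝ :=
  fun i j => (Real.sqrt)^[t n] (Nat.nth Nat.Prime (n * i + j) : ℝ)

end Pool.Agent.H636R2.Rig
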