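import Pool.Agent.H636R2.Rig.Radical
import Pool.Agent.H636R2.Rig.Defs

namespace Pool.Agent.H636R2.Rig
open MvPolynomial

theorem finrank_restrictTotalDegree_le (P : Type) [Fintype P] (D : ℕ) :
    Module.finrank ℚ (restrictTotalDegree P ℚ D) ≤ (Fintype.card P + D).choose D := by
  classical
  have h1 := Module.finrank_eq_nat_card_basis
    (basisRestrictSupport ℚ { n : P →₀ ℕ | (n.sum fun _ e => e) ≤ D })
  have h2 : Module.finrank ℚ (restrictTotalDegree P ℚ D)
      = Nat.card { n : P →₀ ℕ | (n.sum fun _ e => e) ≤ D } := h1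
  rw [h2]
  have h3 : Nat.card (Sym (Option P) D) = (Fintype.card P + D).choose D := by
    rw [Nat.card_eq_fintype_card, Sym.card_sym_eq_choose, Fintype.card_option]
    congr 1
    omega
  rw [← h3]
  refine Nat.card_le_card_of_injective
    (fun n => (⟨(Finsupp.toMultiset n.1).map some + Multiset.replicate (D - n.1.sum fun _ e => e) none,
      ?_⟩ : Sym (Option P) D)) ?_
  · rw [Multiset.card_add, Multiset.card_map, Multiset.card_replicate, Finsupp.card_toMultiset]
    have := n.2
    simp only [Set.mem_ofPred_eq] at this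
    have h4 : (n.1.sum fun _ => id) = n.1.sum fun _ e => e := rfl
    rw [h4]
    omega
  · intro n m hnm
    apply Subtype.ext
    ext p
    have h5 := congrArg (fun s : Sym (Option P) D => Multiset.count (some p) (s : Multiset (Option P))) hnm
    simp only [Sym.coe_mk, Multiset.count_add] at h5
    have h6 : ∀ k, Multiset.count (some p) (Multiset.replicate k (none : Option P)) = 0 := by
      intro k
      rw [Multiset.count_replicate]
      simp
    rw [h6, h6, add_zero, add_zero] at h5
    rw [Multiset.count_map_eq_count' _ _ (Option.some_injective P),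
      Multiset.count_map_eq_count' _ _ (Option.some_injective P),
      Finsupp.count_toMultiset, Finsupp.count_toMultiset] at h5
    exact h5

/-- Dimension count (Shoup–Smolensky style). -/
theorem box_card_le {K : Type*} [Field K] [Algebra ℚ K] {κ P : Type} [Fintype κ] [Fintype P]
    (q : ℕ) (α : κ → K)
    (hind : LinearIndependent ℚ (fun e : κ → Fin q => ∏ k, (α k) ^ (e k : ℕ)))
    (F : κ → MvPolynomial P ℚ) (hF : ∀ k, (F k).totalDegree ≤ 2) (π : P → K)
    (hα : ∀ k, aeval π (F k) = α k) :
    q ^ (Fintype.card κ) ≤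
      (Fintype.card P + 2 * (q - 1) * Fintype.card κ).choose (2 * (q - 1) * Fintype.card κ) := by
  classical
  set D := 2 * (q - 1) * Fintype.card κ with hD
  set G : (κ → Fin q) → MvPolynomial P ℚ := fun e => ∏ k, (F k) ^ (e k : ℕ) with hG
  have hdeg : ∀ e, (G e).totalDegree ≤ D := by
    intro e
    refine (totalDegree_finsetProd _ _).trans ?_
    have : ∀ k ∈ (Finset.univ : Finset κ), ((F k) ^ (e k : ℕ)).totalDegree ≤ 2 * (q - 1) := by
      intro k _
      refine (totalDegree_pow _ _).trans ?_
      have h1 := hF k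
      have h2 : (e k : ℕ) ≤ q - 1 := by have := (e k).isLt; omega
      calc (e k : ℕ) * (F k).totalDegree ≤ (q - 1) * 2 := Nat.mul_le_mul h2 h1
        _ = 2 * (q - 1) := by ring
    refine (Finset.sum_le_sum this).trans ?_
    rw [Finset.sum_const, Finset.card_univ, smul_eq_mul, hD]
    apply le_of_eq
    ring
  have hGind : LinearIndependent ℚ G := by
    apply LinearIndependent.of_comp (aeval π).toLinearMap
    have : ((aeval π).toLinearMap : MvPolynomial P ℚ →ₗ[ℚ] K) ∘ G
        = fun e : κ → Fin q => ∏ k, (α k) ^ (e k : ℕ) := by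
      funext e
      simp only [Function.comp, hG, AlgHom.toLinearMap_apply, map_prod, map_pow, hα]
    rw [this]
    exact hind
  set G' : (κ → Fin q) → restrictTotalDegree P ℚ D :=
    fun e => ⟨G e, (mem_restrictTotalDegree P _ _).2 (hdeg e)⟩ with hG'
  have hG'ind : LinearIndependent ℚ G' := by
    apply LinearIndependent.of_comp (Submodule.subtype _)
    exact hGind
  have h := hG'ind.fintype_card_le_finrank
  rw [Fintype.card_fun, Fintype.card_fin] at h
  exact h.trans (finrank_restrictTotalDegree_le P D)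

/-- Matrices `R + S`, `rank R ≤ r`, are parametrised by `n² - (n-r)² + sp S` numbers through
polynomials of degree at most `2`. -/
theorem exists_param {K : Type*} [Field K] [Algebra ℚ K] {n : ℕ} (R S : Matrix (Fin n) (Fin n) K)
    (r : ℕ) (hr : r ≤ n) (hR : R.rank ≤ r) :
    ∃ (P : Type) (_ : Fintype P) (F : Fin n × Fin n → MvPolynomial P ℚ) (π : P → K),
      (∀ k, (F k).totalDegree ≤ 2) ∧ (∀ k, aeval π (F k) = R k.1 k.2 + S k.1 k.2) ∧
      Fintype.card P + (n - r) ^ 2 ≤ n ^ 2 + sp S := by
  classical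
  obtain ⟨κ, a, ha, hspan, hli⟩ := exists_linearIndependent' K R.row
  have : Finite κ := Finite.of_injective a ha
  let _ : Fintype κ := Fintype.ofFinite κ
  have hcard : Fintype.card κ = R.rank := by
    rw [Matrix.rank_eq_finrank_span_row, ← hspan, finrank_span_eq_card hli]
  have hcoef : ∀ i, ∃ c : κ → K, ∑ l, c l • (R.row ∘ a) l = R.row i := by
    intro i
    have : R.row i ∈ Submodule.span K (Set.range (R.row ∘ a)) := by
      rw [hspan]; exact Submodule.subset_span ⟨i, rfl⟩
    exact (Submodule.mem_span_range_iff_exists_fun K).1 this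
  choose c hc using hcoef
  let P := (κ × Fin n) ⊕ ({i : Fin n // i ∉ Set.range a} × κ) ⊕ {k : Fin n × Fin n // S k.1 k.2 ≠ 0}
  let π : P → K := Sum.elim (fun x => R (a x.1) x.2) (Sum.elim (fun x => c x.1 x.2)
    (fun x => S x.1.1 x.1.2))
  let F1 : Fin n × Fin n → MvPolynomial P ℚ := fun k =>
    if h : k.1 ∈ Set.range a then X (Sum.inl (Classical.choose h, k.2))
    else ∑ l, X (Sum.inr (Sum.inl (⟨k.1, h⟩, l))) * X (Sum.inl (l, k.2))
  let F2 : Fin n × Fin n → MvPolynomial P ℚ := fun k =>
    if h : S k.1 k.2 ≠ 0 then X (Sum.inr (Sum.inr ⟨k, h⟩)) else 0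
  refine ⟨P, inferInstance, fun k => F1 k + F2 k, π, ?_, ?_, ?_⟩
  · intro k
    refine (totalDegree_add _ _).trans (max_le ?_ ?_)
    · simp only [F1]
      split_ifs with h
      · rw [totalDegree_X]; norm_num
      · apply totalDegree_finsetSum_le
        intro l _
        refine (totalDegree_mul _ _).trans ?_
        rw [totalDegree_X, totalDegree_X]
    · simp only [F2]
      split_ifs with h
      · rw [totalDegree_X]; norm_num
      · simp
  · intro k
    rw [map_add]
    congr 1
    · simp only [F1]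
      split_ifs with h
      · rw [aeval_X]
        simp only [π, Sum.elim_inl]
        rw [Classical.choose_spec h]
      · rw [map_sum]
        have h1 := congrFun (hc k.1) k.2
        rw [Finset.sum_apply] at h1
        rw [Matrix.row_apply] at h1
        rw [← h1]
        apply Finset.sum_congr rfl
        intro l _
        rw [map_mul, aeval_X, aeval_X]
        simp only [π, Sum.elim_inl, Sum.elim_inr, Pi.smul_apply, smul_eq_mul, Function.comp,
          Matrix.row_apply]
    · simp only [F2]
      split_ifs with h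
      · rw [aeval_X]
        simp only [π, Sum.elim_inr]
      · rw [map_zero]
        push Not at h
        exact h.symm
  · have hP : Fintype.card P = Fintype.card κ * n + (n - Fintype.card κ) * Fintype.card κ + sp S := by
      simp only [P]
      rw [Fintype.card_sum, Fintype.card_sum, Fintype.card_prod, Fintype.card_prod,
        Fintype.card_fin]
      have h1 : Fintype.card {i : Fin n // i ∉ Set.range a} = n - Fintype.card κ := by
        have h2 := Fintype.card_subtype_compl (fun i : Fin n => i ∈ Set.range a)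
        rw [Fintype.card_fin] at h2
        rw [h2]
        congr 1
        rw [← Set.card_range_of_injective ha]
      rw [h1, sp, Nat.card_eq_fintype_card, add_assoc]
    have hκ : Fintype.card κ ≤ r := by rw [hcard]; exact hR
    rw [hP]
    set ρ := Fintype.card κ
    obtain ⟨u, hu⟩ := Nat.exists_eq_add_of_le hκ
    obtain ⟨v, hv⟩ := Nat.exists_eq_add_of_le hr
    subst hu
    subst hv
    have e1 : ρ + u + v - ρ = u + v := by omega
    have e2 : ρ + u + v - (ρ + u) = v := by omega
    rw [e1, e2]
    nlinarith [Nat.zero_le (u * v), Nat.zero_le (u * u)]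

theorem choose_lt (N M d K : ℕ) (hM : 1 ≤ M) (hMN : N ≤ 2 * M) (hd : M + d ≤ N)
    (hK : 4 * N ≤ K * d) :
    (M + 2 * (2 ^ K - 1) * N).choose (2 * (2 ^ K - 1) * N) < (2 ^ K) ^ N := by
  set q : ℕ := 2 ^ K with hq
  have hq1 : 1 ≤ q := Nat.one_le_two_pow
  set D := 2 * (q - 1) * N with hD
  have hsymm : (M + D).choose D = (M + D).choose M := by
    rw [Nat.choose_symm_add]
  rw [hsymm]
  have hMD : M + D ≤ 4 * q * M := by
    have h1 : D ≤ 2 * (q - 1) * (2 * M) := Nat.mul_le_mul_left _ hMN
    obtain ⟨t, ht⟩ := Nat.exists_eq_add_of_le hq1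
    rw [ht] at h1 ⊢
    have h2 : 1 + t - 1 = t := by omega
    rw [h2] at h1
    nlinarith
  have h1 : ((M + D).choose M : ℝ) ≤ ((M + D : ℕ) : ℝ) ^ M / (M.factorial : ℝ) :=
    Nat.choose_le_pow_div M (M + D)
  have h2 : ((M + D : ℕ) : ℝ) ^ M ≤ (4 * q * M : ℝ) ^ M := by
    apply pow_le_pow_left₀ (by positivity)
    exact_mod_cast hMD
  have hfac : (0 : ℝ) < (M.factorial : ℝ) := by exact_mod_cast M.factorial_pos
  have h3 : (M : ℝ) ^ M / (M.factorial : ℝ) ≤ Real.exp M := by
    have := Real.sum_le_exp_of_nonneg (x := (M : ℝ)) (by positivity) (M + 1)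
    refine le_trans ?_ this
    exact Finset.single_le_sum (f := fun i => (M : ℝ) ^ i / (i.factorial : ℝ))
      (fun i _ => by positivity) (Finset.mem_range.2 (Nat.lt_succ_self M))
  have h4 : Real.exp M < (4 : ℝ) ^ M := by
    have : Real.exp M = Real.exp 1 ^ M := by
      rw [← Real.exp_nat_mul, mul_one]
    rw [this]
    apply pow_lt_pow_left₀ _ (Real.exp_pos 1).le (by omega)
    linarith [Real.exp_one_lt_three]
  have h5 : ((M + D).choose M : ℝ) < (16 * q : ℝ) ^ M := by
    calc ((M + D).choose M : ℝ) ≤ ((M + D : ℕ) : ℝ) ^ M / (M.factorial : ℝ) := h1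
      _ ≤ (4 * q * M : ℝ) ^ M / (M.factorial : ℝ) := by gcongr
      _ = (4 * q : ℝ) ^ M * ((M : ℝ) ^ M / (M.factorial : ℝ)) := by rw [mul_pow]; ring
      _ ≤ (4 * q : ℝ) ^ M * Real.exp M := by gcongr
      _ < (4 * q : ℝ) ^ M * (4 : ℝ) ^ M := by
        apply mul_lt_mul_of_pos_left h4
        have : (0 : ℝ) < q := by exact_mod_cast hq1
        positivity
      _ = (16 * q : ℝ) ^ M := by rw [← mul_pow]; ring_nf
  have h6 : (M + D).choose M < (16 * q) ^ M := by exact_mod_cast h5
  refine h6.trans_le ?_
  calc (16 * q) ^ M = 2 ^ (4 * M) * q ^ M := by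
        rw [mul_pow, pow_mul]
        norm_num
    _ ≤ 2 ^ (K * d) * q ^ M := by
        apply Nat.mul_le_mul_right
        apply Nat.pow_le_pow_right (by norm_num)
        omega
    _ = q ^ (d + M) := by rw [hq, ← pow_mul, ← pow_mul, ← pow_add]; ring_nf
    _ ≤ q ^ N := Nat.pow_le_pow_right hq1 (by omega)

/-- The abstract rigidity theorem. -/
theorem rigid_of_indep {K : Type*} [Field K] [Algebra ℚ K] {n : ℕ} (t d : ℕ) (hd : 1 ≤ d)
    (hd2 : 2 * d ≤ n ^ 2) (ht : 4 * n ^ 2 ≤ t * d) (A : Matrix (Fin n) (Fin n) K)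
    (hind : LinearIndependent ℚ
      (fun e : (Fin n × Fin n) → Fin (2 ^ t) => ∏ k, (A k.1 k.2) ^ (e k : ℕ)))
    (r : ℕ) (hr : r ≤ n) (R S : Matrix (Fin n) (Fin n) K) (hA : A = R + S) (hR : R.rank ≤ r) :
    (n - r) ^ 2 < sp S + d := by
  by_contra hcon
  push Not at hcon
  obtain ⟨P, hPf, F, π, hF, hα, hcard⟩ := exists_param R S r hr hR
  have h1 := box_card_le (2 ^ t) (fun k : Fin n × Fin n => A k.1 k.2) hind F hF π
    (by intro k; rw [hα, hA]; rfl)
  have hcN : Fintype.card (Fin n × Fin n) = n ^ 2 := by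
    rw [Fintype.card_prod, Fintype.card_fin, sq]
  rw [hcN] at h1
  set N := n ^ 2 with hN
  have hPM : Fintype.card P ≤ N - d := by omega
  have h2 : (Fintype.card P + 2 * (2 ^ t - 1) * N).choose (2 * (2 ^ t - 1) * N)
      ≤ ((N - d) + 2 * (2 ^ t - 1) * N).choose (2 * (2 ^ t - 1) * N) :=
    Nat.choose_le_choose _ (by omega)
  have h3 := choose_lt N (N - d) d t (by omega) (by omega) (by omega) ht
  omega

end Pool.Agent.H636R2.Rig
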