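import Pool.Agent.H636R2.Rig.Defs
import Pool.Agent.H671R2.PolyAuto
import Pool.Agent.NPC.Dec

/-!
# The first `n²` primes in polynomial time
-/

namespace Pool.Agent.H636R2.Rig
open Pool.Agent.NPC

theorem filter_range_prime (B : ℕ) :
    (List.range B).filter (fun m => decide (Nat.Prime m))
      = (List.range (Nat.count Nat.Prime B)).map (Nat.nth Nat.Prime) := by
  induction B with
  | zero => simp
  | succ B ih =>
    rw [List.range_succ, List.filter_append, ih, Nat.count_succ]
    by_cases h : Nat.Prime B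
    · rw [if_pos h, List.range_succ, List.map_append]
      congr 1
      simp [h, Nat.nth_count]
    · rw [if_neg h, add_zero]
      simp [h]

theorem getD_filter_range_prime (B k : ℕ) (hk : k < Nat.count Nat.Prime B) :
    ((List.range B).filter (fun m => decide (Nat.Prime m))).getD k 0 = Nat.nth Nat.Prime k := by
  rw [filter_range_prime, List.getD_eq_getElem?_getD, List.getElem?_map, List.getElem?_range hk]
  simp

/-- trial division, with a bound -/
def isP (B m : ℕ) : Bool :=
  decide (2 ≤ m) && (List.range B).all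
    (fun d => decide (d < 2) || decide (m ≤ d) || !(decide (m % d = 0)))

theorem isP_eq (B m : ℕ) (h : m ≤ B) : isP B m = decide (Nat.Prime m) := by
  rw [Bool.eq_iff_iff]
  rw [isP, Bool.and_eq_true, decide_eq_true_eq, List.all_eq_true, decide_eq_true_eq]
  constructor
  · rintro ⟨h2, hall⟩
    rw [Nat.prime_def_lt']
    refine ⟨h2, fun d hd2 hdm hdvd => ?_⟩
    have := hall d (List.mem_range.2 (by omega))
    simp only [Bool.or_eq_true, decide_eq_true_eq, Bool.not_eq_true', decide_eq_false_iff_not] at this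
    rcases this with (h3 | h3) | h3
    · omega
    · omega
    · exact h3 (Nat.mod_eq_zero_of_dvd hdvd)
  · intro hp
    refine ⟨hp.two_le, fun d _ => ?_⟩
    simp only [Bool.or_eq_true, decide_eq_true_eq, Bool.not_eq_true', decide_eq_false_iff_not]
    by_cases h3 : d < 2
    · left; left; exact h3
    by_cases h4 : m ≤ d
    · left; right; exact h4
    right
    intro h5
    rw [Nat.prime_def_lt'] at hp
    exact hp.2 d (by omega) (by omega) (Nat.dvd_of_mod_eq_zero h5)

/-- the bound below which we look for primes -/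
def bnd (n : ℕ) : ℕ := 100 * ((n + 1) * (n + 1) * (n + 1) * (n + 1))

/-- the list of the primes below the bound -/
def pl (n : ℕ) : List ℕ := (List.range (bnd n)).filter (isP (bnd n))

theorem uPoly_len : UPoly (fun x : List Bool => x.length) := UPoly.length Poly.id

theorem uPoly_bnd : UPoly (fun x : List Bool => bnd x.length) := by
  have h1 : UPoly (fun x : List Bool => x.length + 1) := UPoly.add uPoly_len (UPoly.const 1)
  exact UPoly.mul (UPoly.const 100) (UPoly.mul (UPoly.mul (UPoly.mul h1 h1) h1) h1)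

theorem poly_pl : Poly (fun x : List Bool => pl x.length) := by
  have h1 : Poly (fun x : List Bool => List.range (bnd x.length)) := uPoly_bnd.range
  refine NPC.Poly.filter (p := fun (x : List Bool) m => isP (bnd x.length) m) h1 ?_
  have h2 : Poly (fun p : List Bool × ℕ => List.range (bnd p.1.length)) :=
    NPC.Poly.comp (g := fun x : List Bool => List.range (bnd x.length)) h1 (NPC.Poly.fst NPC.Poly.id)
  unfold isP
  fun_prop

theorem poly_two_pow {α : Type} [TEnc α] {t : α → ℕ} (ht : UPoly t) :
    Poly (fun a => 2 ^ (t a)) := by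
  have h1 : Poly (fun a => List.replicate (t a) () ) := ht
  have h2 : Poly (fun a => (List.replicate (t a) ()).map (fun _ => false) ++ [true]) := by
    fun_prop
  refine (Poly.valBits h2).congr fun a => ?_
  rw [List.map_replicate, valB_replicate_false]
  simp

theorem poly_neg_natCast {α : Type} [TEnc α] {f : α → ℕ} (hf : Poly f) :
    Poly (fun a => (-((f a : ℕ) : ℤ))) :=
  NPC.Poly.of_toT ((NPC.Poly.toT' (NPC.Poly.pair (NPC.Poly.decide_lt (NPC.Poly.const 0) hf) hf)).congr fun a => by
    change toT (decide (0 < f a), f a)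
      = toT (decide ((-((f a : ℕ) : ℤ)) < 0), (-((f a : ℕ) : ℤ)).natAbs)
    have h : decide ((-((f a : ℕ) : ℤ)) < 0) = decide (0 < f a) := by
      rw [decide_eq_decide]; omega
    rw [h]
    simp)

/-- the description computed by the algorithm -/
def desc (q p : ℕ) : List (ℕ × ℤ) × ℕ × ℕ := ([(0, -(p : ℤ)), (q, 1)], 1, p)

theorem poly_desc {α : Type} [TEnc α] {q p : α → ℕ} (hq : Poly q) (hp : Poly p) :
    Poly (fun a => desc (q a) (p a)) := by
  have h := poly_neg_natCast hp
  unfold desc
  fun_prop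

/-- the algorithm -/
def algo (t : ℕ → ℕ) (n : ℕ) : List (List (ℕ × ℤ) × ℕ × ℕ) :=
  (List.range (n * n)).map (fun k => desc (2 ^ (t n)) ((pl n).getD k 0))

theorem poly_algo (t : ℕ → ℕ) (ht : UPoly (fun x : List Bool => t x.length)) :
    Poly (fun x : List Bool => algo t x.length) := by
  have h1 : Poly (fun x : List Bool => List.range (x.length * x.length)) :=
    (UPoly.mul uPoly_len uPoly_len).range
  have h2 : Poly (fun x : List Bool => 2 ^ (t x.length)) := poly_two_pow ht
  refine NPC.Poly.map (F := fun (x : List Bool) k => desc (2 ^ (t x.length)) ((pl x.length).getD k 0))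
    h1 ?_
  apply poly_desc
  · exact NPC.Poly.comp (g := fun x : List Bool => 2 ^ (t x.length)) h2 (NPC.Poly.fst NPC.Poly.id)
  · exact NPC.Poly.getD (NPC.Poly.comp (g := fun x : List Bool => pl x.length) poly_pl
      (NPC.Poly.fst NPC.Poly.id)) (NPC.Poly.snd NPC.Poly.id) (NPC.Poly.const 0)

theorem polyTime_algo (t : ℕ → ℕ) (ht : UPoly (fun x : List Bool => t x.length)) :
    ∃ f : List Bool → List Bool, PolyTime f ∧
      ∀ n, f (List.replicate n true) = bits (algo t n) :=
  ⟨fun x => bits (algo t x.length), polyTime_bits (poly_algo t ht), fun n => by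
    simp [List.length_replicate]⟩

/-- There are enough primes below the bound. -/
theorem le_count_bnd (n : ℕ) : n * n ≤ Nat.count Nat.Prime (bnd n) := by
  have h0 : Nat.count Nat.Prime (bnd n) = Nat.primeCounting' (bnd n) := rfl
  set B := bnd n with hB
  have hB1 : 100 ≤ B := by
    rw [hB, bnd]
    have : 1 ≤ (n + 1) * (n + 1) * (n + 1) * (n + 1) := Nat.succ_le_of_lt (by positivity)
    omega
  have hpi := Chebyshev.pi_ge (B - 1)
  have hpi2 : Nat.primeCounting (B - 1) = Nat.primeCounting' B := by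
    rw [Nat.primeCounting]
    congr 1
  rw [hpi2] at hpi
  rw [h0]
  set x : ℝ := ((B - 1 : ℕ) : ℝ) with hx
  have hxB : x = (B : ℝ) - 1 := by
    rw [hx, Nat.cast_sub (by omega)]; simp
  have hx99 : (99 : ℝ) ≤ x := by
    rw [hxB]
    have : (100 : ℝ) ≤ B := by exact_mod_cast hB1
    linarith
  set m : ℝ := (n : ℝ) + 1 with hm
  have hm1 : 1 ≤ m := by rw [hm]; have : (0 : ℝ) ≤ n := Nat.cast_nonneg n; linarith
  have hBm : (B : ℝ) = 100 * m ^ 4 := by
    rw [hB, bnd, hm]; push_cast; ring
  -- `log (x+1) ≤ 2 sqrt (x+1)`-type bound with `sqrt B = 10 m²`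
  have hlogB : Real.log (B : ℝ) ≤ 4 * (10 * m ^ 2) ^ (1 / 2 : ℝ) := by
    have h1 : Real.log ((10 * m ^ 2) ^ (1 / 2 : ℝ)) ≤ (10 * m ^ 2) ^ (1 / 2 : ℝ) - 1 := by
      apply Real.log_le_sub_one_of_pos
      positivity
    have h2 : Real.log ((10 * m ^ 2) ^ (1 / 2 : ℝ)) = 1 / 4 * Real.log (B : ℝ) := by
      rw [Real.log_rpow (by positivity)]
      have : (B : ℝ) = (10 * m ^ 2) ^ 2 := by rw [hBm]; ring
      rw [this, Real.log_pow]
      push_cast
      ring
    linarith
  have hs : (10 * m ^ 2) ^ (1 / 2 : ℝ) ≤ 4 * m := by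
    rw [← Real.sqrt_eq_rpow]
    rw [Real.sqrt_le_left (by positivity)]
    nlinarith
  have hlogB2 : Real.log (B : ℝ) ≤ 16 * m := by linarith
  have hlogx : Real.log x ≤ 16 * m := by
    refine le_trans (Real.log_le_log (by linarith) ?_) hlogB2
    rw [hxB]; linarith
  have hlogxpos : 0 < Real.log x := Real.log_pos (by linarith)
  have hx1 : Real.log (x + 1) ≤ 16 * m := by
    have : x + 1 = B := by rw [hxB]; ring
    rw [this]; exact hlogB2
  have hl2 : (0.69 : ℝ) < Real.log 2 := by
    have := Real.log_two_gt_d9; linarith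
  have hcast : ((Nat.primeCounting' B : ℕ) : ℝ) ≥ m ^ 2 := by
    refine le_trans ?_ hpi
    rw [le_div_iff₀ hlogxpos]
    have h3 : m ^ 2 * Real.log x ≤ m ^ 2 * (16 * m) := by gcongr
    have h4 : (0 : ℝ) ≤ x := by linarith
    have h5 : x * 0.69 ≤ x * Real.log 2 := by gcongr
    have h6 : m ^ 3 ≤ m ^ 4 := by
      apply pow_le_pow_right₀ hm1 (by norm_num)
    have h7 : m ≤ m ^ 4 := by
      calc m = m ^ 1 := (pow_one m).symm
        _ ≤ m ^ 4 := pow_le_pow_right₀ hm1 (by norm_num)
    have h8 : (1 : ℝ) ≤ m ^ 4 := one_le_pow₀ hm1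
    have h9 : x = 100 * m ^ 4 - 1 := by rw [hxB, hBm]
    nlinarith
  have h10 : ((n * n : ℕ) : ℝ) ≤ ((Nat.primeCounting' B : ℕ) : ℝ) := by
    refine le_trans ?_ hcast
    push_cast
    rw [hm]
    have : (0 : ℝ) ≤ n := Nat.cast_nonneg n
    nlinarith
  exact_mod_cast h10

theorem pl_getD (n k : ℕ) (hk : k < n * n) : (pl n).getD k 0 = Nat.nth Nat.Prime k := by
  have h1 : pl n = (List.range (bnd n)).filter (fun m => decide (Nat.Prime m)) := by
    rw [pl]
    apply List.filter_congr
    intro m hm
    exact isP_eq _ _ (List.mem_range.1 hm).le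
  rw [h1]
  exact getD_filter_range_prime _ _ (lt_of_lt_of_le hk (le_count_bnd n))

end Pool.Agent.H636R2.Rig
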