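import Pool.Agent.H636R2.Rig.Count
import Pool.Agent.H636R2.Rig.Poly

/-!
# The matrices of iterated square roots of primes are rigid
-/

namespace Pool.Agent.H636R2.Rig
open Polynomial IntermediateField

theorem iterSqrt_pos (t : ℕ) (x : ℝ) (hx : 0 < x) : 0 < Real.sqrt^[t] x := by
  induction t generalizing x with
  | zero => simpa using hx
  | succ t ih =>
    rw [Function.iterate_succ_apply]
    exact ih _ (Real.sqrt_pos.2 hx)

theorem iterSqrt_pow (t : ℕ) (x : ℝ) (hx : 0 ≤ x) : (Real.sqrt^[t] x) ^ (2 ^ t) = x := by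
  induction t generalizing x with
  | zero => simp
  | succ t ih =>
    rw [Function.iterate_succ_apply, pow_succ, pow_mul, ih _ (Real.sqrt_nonneg x),
      Real.sq_sqrt hx]

/-- The primes used. -/
noncomputable def pr (n : ℕ) (k : Fin n × Fin n) : ℕ := Nat.nth Nat.Prime (n * k.1 + k.2)

theorem pr_prime (n : ℕ) (k : Fin n × Fin n) : (pr n k).Prime :=
  Nat.prime_nth_prime _

theorem pr_injective (n : ℕ) : Function.Injective (pr n) := by
  intro k l h
  have h1 : n * (k.1 : ℕ) + k.2 = n * (l.1 : ℕ) + l.2 :=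
    Nat.nth_injective Nat.infinite_setOfPred_prime h
  have hk2 := k.2.isLt
  have hl2 := l.2.isLt
  have hn : 0 < n := by omega
  have h2 : (n * (k.1 : ℕ) + k.2) / n = (n * (l.1 : ℕ) + l.2) / n := by rw [h1]
  rw [Nat.mul_add_div hn, Nat.mul_add_div hn, Nat.div_eq_of_lt hk2, Nat.div_eq_of_lt hl2,
    add_zero, add_zero] at h2
  have h3 : (k.2 : ℕ) = l.2 := by rw [h2] at h1; omega
  exact Prod.ext (Fin.ext h2) (Fin.ext h3)

theorem indep_real (t n : ℕ) : LinearIndependent ℚ
    (fun e : (Fin n × Fin n) → Fin (2 ^ t) =>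
      ∏ k, (Real.sqrt^[t] (pr n k : ℝ)) ^ (e k : ℕ)) :=
  primeRoots_linearIndependent (pr n) (pr_prime n) (pr_injective n) (2 ^ t) (by positivity)
    (fun k => Real.sqrt^[t] (pr n k : ℝ))
    (fun k => iterSqrt_pos t _ (by exact_mod_cast (pr_prime n k).pos))
    (fun k => iterSqrt_pow t _ (by positivity))

theorem indep_complex (t n : ℕ) : LinearIndependent ℚ
    (fun e : (Fin n × Fin n) → Fin (2 ^ t) =>
      ∏ k, ((Real.sqrt^[t] (pr n k : ℝ) : ℝ) : ℂ) ^ (e k : ℕ)) := by
  have h := indep_real t n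
  have h2 := h.map' ((Algebra.linearMap ℝ ℂ).restrictScalars ℚ)
    (LinearMap.ker_eq_bot.2 (fun x y hxy => Complex.ofReal_injective hxy))
  refine Eq.mp ?_ h2
  congr 1
  funext e
  simp

/-- `R` of rank `≤ 0` cannot be the whole of a `1 × 1` matrix with nonzero entry. -/
theorem rigid_one {K : Type*} [Field K] (A : Matrix (Fin 1) (Fin 1) K) (h : A 0 0 ≠ 0) :
    Rigid A 0 0 := by
  rintro ⟨R, S, hA, hR, hS⟩
  have hR0 : R = 0 := by
    have h0 : R.rank = 0 := by omega
    rw [Matrix.rank_eq_finrank_span_row] at h0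
    have h1 := Submodule.finrank_eq_zero.1 h0
    rw [Submodule.span_eq_bot] at h1
    ext i j
    have h2 := h1 (R.row i) ⟨i, rfl⟩
    exact congrFun h2 j
  rw [hR0, zero_add] at hA
  have : sp S = 0 := by omega
  rw [sp, Nat.card_eq_zero] at this
  rcases this with h1 | h1
  · rw [hA] at h
    exact h1.elim ⟨(0, 0), h⟩
  · exact absurd (inferInstance : Finite _) (not_finite_iff_infinite.2 h1)

theorem rigid_real_complex {n : ℕ} (t d r s : ℕ) (ht : 12 ≤ t ∨ 2 * d ≤ n ^ 2) (hd : 1 ≤ d)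
    (htd : 4 * n ^ 2 ≤ t * d)
    (hr : r ≤ n) (hs : s + d ≤ (n - r) ^ 2) (A : Matrix (Fin n) (Fin n) ℝ)
    (hA : ∀ i j, A i j = Real.sqrt^[t] (pr n (i, j) : ℝ)) :
    Rigid A r s ∧ Rigid (A.map (fun x : ℝ => (x : ℂ))) r s := by
  rcases Nat.lt_or_ge n 2 with hn | hn
  · -- `n ≤ 1`
    rcases Nat.eq_zero_or_pos n with h0 | h0
    · subst h0
      exfalso
      have : (0 - r) ^ 2 = 0 := by simp
      omega
    · have h1 : n = 1 := by omega
      subst h1
      have hr0 : r = 0 := by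
        by_contra hcon
        have : 1 - r = 0 := by omega
        rw [this] at hs
        omega
      subst hr0
      have hs0 : s = 0 := by omega
      subst hs0
      have hpos : 0 < A 0 0 := by
        rw [hA]
        exact iterSqrt_pos t _ (by exact_mod_cast (pr_prime 1 _).pos)
      refine ⟨rigid_one A hpos.ne', rigid_one _ ?_⟩
      simp only [Matrix.map_apply]
      exact_mod_cast hpos.ne'
  · -- replace `d` by a smaller number if necessary
    obtain ⟨d', hd1, hd2, hd3, hd4⟩ : ∃ d', 1 ≤ d' ∧ 2 * d' ≤ n ^ 2 ∧ 4 * n ^ 2 ≤ t * d' ∧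
        s + d' ≤ (n - r) ^ 2 := by
      by_cases h : 2 * d ≤ n ^ 2
      · exact ⟨d, hd, h, htd, hs⟩
      · have ht12 : 12 ≤ t := by
          rcases ht with h1 | h1
          · exact h1
          · exact absurd h1 h
        refine ⟨n ^ 2 / 2, ?_, ?_, ?_, ?_⟩
        · have : 4 ≤ n ^ 2 := by nlinarith
          omega
        · omega
        · have h4 : 4 ≤ n ^ 2 := by nlinarith
          have h5 : n ^ 2 ≤ 3 * (n ^ 2 / 2) := by omega
          calc 4 * n ^ 2 ≤ 12 * (n ^ 2 / 2) := by omega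
            _ ≤ t * (n ^ 2 / 2) := Nat.mul_le_mul_right _ ht12
        · have : n ^ 2 / 2 ≤ d := by omega
          omega
    constructor
    · rintro ⟨R, S, hRS, hR, hS⟩
      have hind : LinearIndependent ℚ
          (fun e : (Fin n × Fin n) → Fin (2 ^ t) => ∏ k, (A k.1 k.2) ^ (e k : ℕ)) := by
        have h := indep_real t n
        refine Eq.mp ?_ h
        congr 1
        funext e
        apply Finset.prod_congr rfl
        intro k _
        rw [hA]
      have := rigid_of_indep t d' hd1 hd2 hd3 A hind r hr R S hRS hR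
      omega
    · rintro ⟨R, S, hRS, hR, hS⟩
      have hind : LinearIndependent ℚ
          (fun e : (Fin n × Fin n) → Fin (2 ^ t) =>
            ∏ k, ((A.map (fun x : ℝ => (x : ℂ))) k.1 k.2) ^ (e k : ℕ)) := by
        have h := indep_complex t n
        refine Eq.mp ?_ h
        congr 1
        funext e
        apply Finset.prod_congr rfl
        intro k _
        rw [Matrix.map_apply, hA]
      have := rigid_of_indep t d' hd1 hd2 hd3 _ hind r hr R S hRS hR
      omega

/-! ### Explicitness -/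

theorem minpoly_root (p q : ℕ) (hp : p.Prime) (hq : 0 < q) (ρ : ℝ) (hρ : 0 < ρ)
    (hρq : ρ ^ q = p) : minpoly ℚ ρ = X ^ q - C (p : ℚ) := by
  have hint : IsIntegral ℚ ρ := ⟨X ^ q - C (p : ℚ), monic_X_pow_sub_C _ hq.ne', by
    simp only [eval₂_sub, eval₂_X_pow, eval₂_C, hρq]; simp⟩
  have hdvd : minpoly ℚ ρ ∣ X ^ q - C (p : ℚ) := by
    apply minpoly.dvd
    simp [hρq]
  have h1 := primeRoots_linearIndependent (κ := Unit) (fun _ => p) (fun _ => hp)
    (fun _ _ _ => rfl) q hq (fun _ => ρ) (fun _ => hρ) (fun _ => hρq)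
  have h2 : LinearIndependent ℚ (fun i : Fin q => ρ ^ (i : ℕ)) := by
    have h3 := h1.comp (fun i : Fin q => fun _ : Unit => i) (fun i j hij => congrFun hij ())
    refine Eq.mp ?_ h3
    congr 1
    funext i
    simp
  have : FiniteDimensional ℚ ℚ⟮ρ⟯ := IntermediateField.adjoin.finiteDimensional hint
  have h4 : q ≤ (minpoly ℚ ρ).natDegree := by
    rw [← IntermediateField.adjoin.finrank hint]
    have h5 : LinearIndependent ℚ (fun i : Fin q =>
        (⟨ρ ^ (i : ℕ), pow_mem (IntermediateField.mem_adjoin_simple_self ℚ ρ) _⟩ : ℚ⟮ρ⟯)) := by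
      apply LinearIndependent.of_comp (ℚ⟮ρ⟯.val.toLinearMap)
      exact h2
    have h6 := h5.fintype_card_le_finrank
    rwa [Fintype.card_fin] at h6
  symm
  apply Polynomial.eq_of_monic_of_dvd_of_natDegree_le (minpoly.monic hint)
    (monic_X_pow_sub_C _ hq.ne') hdvd
  rw [natDegree_X_pow_sub_C]
  exact h4

theorem polyOf_desc (q p : ℕ) : polyOf (desc q p).1 = X ^ q - C (p : ℚ) := by
  rw [polyOf, desc]
  simp only [List.map_cons, List.map_nil, List.sum_cons, List.sum_nil, add_zero]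
  rw [Polynomial.X_pow_eq_monomial]
  simp only [Int.cast_neg, Int.cast_natCast, monomial_zero_left, map_neg, Int.cast_one]
  ring

theorem describes (t p : ℕ) (hp : p.Prime) (ht : 1 ≤ t) :
    Describes (desc (2 ^ t) p) (Real.sqrt^[t] (p : ℝ)) := by
  have hρ : 0 < Real.sqrt^[t] (p : ℝ) := iterSqrt_pos t _ (by exact_mod_cast hp.pos)
  have hρq : (Real.sqrt^[t] (p : ℝ)) ^ (2 ^ t) = p := iterSqrt_pow t _ (by positivity)
  set ρ := Real.sqrt^[t] (p : ℝ)
  have hq : 2 ≤ 2 ^ t := by
    calc 2 = 2 ^ 1 := rfl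
      _ ≤ 2 ^ t := Nat.pow_le_pow_right (by norm_num) ht
  have hp1 : (1 : ℝ) < p := by exact_mod_cast hp.one_lt
  refine ⟨?_, ⟨?_, ?_⟩, ?_⟩
  · rw [polyOf_desc, minpoly_root p (2 ^ t) hp (by positivity) ρ hρ hρq]
  · simp only [desc, Nat.cast_one]
    by_contra hcon
    push Not at hcon
    have := pow_le_one₀ (n := 2 ^ t) hρ.le hcon
    linarith
  · simp only [desc]
    by_contra hcon
    push Not at hcon
    have h1 : (p : ℝ) < (p : ℝ) ^ (2 ^ t) := by
      calc (p : ℝ) = (p : ℝ) ^ 1 := (pow_one _).symm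
        _ < (p : ℝ) ^ (2 ^ t) := pow_lt_pow_right₀ hp1 (by omega)
    have h2 : (p : ℝ) ^ (2 ^ t) ≤ ρ ^ (2 ^ t) := pow_le_pow_left₀ (by positivity) hcon _
    linarith
  · intro y hy1 _ hy3
    rw [polyOf_desc] at hy3
    simp only [desc, Nat.cast_one] at hy1
    have h3 : y ^ (2 ^ t) = (p : ℝ) := by
      simp only [map_sub, map_pow, aeval_X, aeval_C] at hy3
      have := sub_eq_zero.1 hy3
      simpa using this
    rw [← hρq] at h3
    exact (pow_left_inj₀ (by linarith) hρ.le (by positivity)).1 h3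

theorem explicit_rootMatrix (t : ℕ → ℕ) (ht : ∀ n, 1 ≤ n → 1 ≤ t n)
    (hu : Pool.Agent.NPC.UPoly (fun x : List Bool => t x.length)) :
    Explicit (rootMatrix t) := by
  refine ⟨algo t, polyTime_algo t hu, ?_⟩
  intro n i j
  have hk : n * (i : ℕ) + j < n * n := by
    have hi := i.isLt
    have hj := j.isLt
    calc n * (i : ℕ) + j < n * (i : ℕ) + n := by omega
      _ = n * ((i : ℕ) + 1) := by ring
      _ ≤ n * n := Nat.mul_le_mul_left _ (by omega)
  refine ⟨desc (2 ^ (t n)) (Nat.nth Nat.Prime (n * i + j)), ?_, ?_⟩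
  · rw [algo, List.getElem?_map, List.getElem?_range hk]
    simp only [Option.map_some, pl_getD n _ hk]
  · exact describes (t n) _ (Nat.prime_nth_prime _) (ht n (by have := i.isLt; omega))

end Pool.Agent.H636R2.Rig
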