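import Mathlib

namespace Pool.Agent.H636R2.Rig
open Polynomial

/-- The trace of an irrational positive real radical is zero. -/
theorem trace_radical (L : IntermediateField ℚ ℝ) [FiniteDimensional ℚ L] (g : L)
    (hpos : 0 < (g : ℝ)) (q : ℕ) (hq : 0 < q) (a : ℚ) (h : (g : ℝ) ^ q = a)
    (hirr : ∀ b : ℚ, (g : ℝ) ≠ b) : Algebra.trace ℚ L g = 0 := by
  have hint : IsIntegral ℚ g := IsIntegral.of_finite ℚ g
  set P := minpoly ℚ g with hP
  have hmonic : P.Monic := minpoly.monic hint
  have hgq : g ^ q = algebraMap ℚ L a := by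
    apply Subtype.ext
    push_cast
    rw [h]
    simp
  have hdvd : P ∣ X ^ q - C a := by
    apply minpoly.dvd
    simp [hgq]
  have ha : 0 < a := by
    have : (0 : ℝ) < a := by rw [← h]; positivity
    exact_mod_cast this
  -- the roots in ℂ
  have hsplit : (P.map (algebraMap ℚ ℂ)).Splits := IsAlgClosed.splits _
  have hroot : ∀ z ∈ (P.map (algebraMap ℚ ℂ)).roots, ‖z‖ = (g : ℝ) := by
    intro z hz
    have hz1 : (P.map (algebraMap ℚ ℂ)).IsRoot z := (mem_roots'.1 hz).2
    have hz2 : ((X ^ q - C a : ℚ[X]).map (algebraMap ℚ ℂ)).IsRoot z :=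
      hz1.dvd (Polynomial.map_dvd _ hdvd)
    have hz3 : z ^ q = (a : ℂ) := by
      have := hz2
      simp only [Polynomial.map_sub, Polynomial.map_pow, map_X, map_C, IsRoot.def, eval_sub,
        eval_pow, eval_X, eval_C] at this
      have h2 := sub_eq_zero.1 this
      simpa using h2
    have hz4 : ‖z‖ ^ q = (g : ℝ) ^ q := by
      rw [← norm_pow, hz3, h]
      have : ((a : ℚ) : ℂ) = ((a : ℝ) : ℂ) := by push_cast; rfl
      rw [this, Complex.norm_real, Real.norm_eq_abs, abs_of_pos (by exact_mod_cast ha)]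
    exact (pow_left_inj₀ (norm_nonneg _) hpos.le hq.ne').1 hz4
  have hcard : Multiset.card (P.map (algebraMap ℚ ℂ)).roots = P.natDegree := by
    rw [← hsplit.natDegree_eq_card_roots, natDegree_map]
  have hcoeff : (P.map (algebraMap ℚ ℂ)).coeff 0
      = (-1) ^ P.natDegree * (P.map (algebraMap ℚ ℂ)).roots.prod := by
    have := hsplit.coeff_zero_eq_prod_roots_of_monic (hmonic.map _)
    rw [this, natDegree_map]
  have habs : |(P.coeff 0 : ℝ)| = (g : ℝ) ^ P.natDegree := by
    have h1 : ‖(P.map (algebraMap ℚ ℂ)).coeff 0‖ = (g : ℝ) ^ P.natDegree := by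
      rw [hcoeff, norm_mul, norm_pow, norm_neg, norm_one, one_pow, one_mul]
      rw [← hcard]
      have : ∀ s : Multiset ℂ, (∀ z ∈ s, ‖z‖ = (g : ℝ)) → ‖s.prod‖ = (g : ℝ) ^ Multiset.card s := by
        intro s
        induction s using Multiset.induction_on with
        | empty => intro _; simp
        | cons z s ih =>
          intro hs
          rw [Multiset.prod_cons, norm_mul, Multiset.card_cons, pow_succ,
            ih (fun w hw => hs w (Multiset.mem_cons_of_mem hw)), hs z (Multiset.mem_cons_self z s),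
            mul_comm]
      exact this _ hroot
    rw [← h1, coeff_map]
    have : ((algebraMap ℚ ℂ) (P.coeff 0)) = (((P.coeff 0 : ℚ) : ℝ) : ℂ) := by simp
    rw [this, Complex.norm_real, Real.norm_eq_abs]
  set c : ℚ := |P.coeff 0| with hc
  have hgc : (g : ℝ) ^ P.natDegree = c := by rw [← habs, hc]; push_cast; rfl
  have hd0 : 0 < P.natDegree := minpoly.natDegree_pos hint
  have hgc' : g ^ P.natDegree = algebraMap ℚ L c := by
    apply Subtype.ext
    push_cast
    rw [hgc]
    simp
  have hdvd2 : P ∣ X ^ P.natDegree - C c := by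
    apply minpoly.dvd
    simp [hgc']
  have hPe : X ^ P.natDegree - C c = P := by
    apply Polynomial.eq_of_monic_of_dvd_of_natDegree_le hmonic (monic_X_pow_sub_C c hd0.ne') hdvd2
    rw [natDegree_X_pow_sub_C]
  have hd1 : P.natDegree ≠ 1 := by
    intro h1
    rw [h1, pow_one] at hgc
    exact hirr c hgc
  have hnc : P.nextCoeff = 0 := by
    rw [nextCoeff_of_natDegree_pos hd0]
    rw [← hPe]
    rw [natDegree_X_pow_sub_C]
    rw [coeff_sub, coeff_X_pow, coeff_C]
    have e1 : P.natDegree - 1 ≠ P.natDegree := by omega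
    have e2 : P.natDegree - 1 ≠ 0 := by omega
    simp [e1, e2]
  rw [trace_eq_finrank_mul_minpoly_nextCoeff, ← hP, hnc]
  simp

/-- **Radicals are linearly independent** (Besicovitch, Mordell, Siegel): positive real numbers with
a common rational power and with pairwise irrational ratios are linearly independent over `ℚ`. -/
theorem radicals_linearIndependent {ι : Type*} (β : ι → ℝ) (hpos : ∀ i, 0 < β i) (q : ℕ)
    (hq : 0 < q) (hrat : ∀ i, ∃ a : ℚ, (β i) ^ q = a)
    (hratio : ∀ i j, i ≠ j → ∀ b : ℚ, β i / β j ≠ b) : LinearIndependent ℚ β := by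
  classical
  rw [linearIndependent_iff']
  intro s c hsum i0 hi0
  set S : Set ℝ := (fun i => β i / β i0) '' (s : Set ι) with hS
  have hSfin : S.Finite := s.finite_toSet.image _
  have : Finite S := hSfin
  have hint : ∀ x ∈ S, IsIntegral ℚ x := by
    rintro x ⟨i, -, rfl⟩
    obtain ⟨a, ha⟩ := hrat i
    obtain ⟨b, hb⟩ := hrat i0
    refine ⟨X ^ q - C (a / b), monic_X_pow_sub_C _ hq.ne', ?_⟩
    simp only [eval₂_sub, eval₂_X_pow, eval₂_C]
    rw [div_pow, ha, hb]
    simp
  set L := IntermediateField.adjoin ℚ S with hL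
  have : FiniteDimensional ℚ L := IntermediateField.finiteDimensional_adjoin hint
  have hmem : ∀ i ∈ s, β i / β i0 ∈ L := fun i hi =>
    IntermediateField.subset_adjoin ℚ S ⟨i, hi, rfl⟩
  set y : ι → L := fun i => if h : i ∈ s then ⟨β i / β i0, hmem i h⟩ else 0 with hy
  have hyv : ∀ i ∈ s, ((y i : L) : ℝ) = β i / β i0 := by
    intro i hi
    simp [hy, hi]
  have hsumy : ∑ i ∈ s, c i • y i = 0 := by
    apply Subtype.ext
    have h0 : ((∑ i ∈ s, c i • y i : L) : ℝ) = ∑ i ∈ s, c i • (β i / β i0) := by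
      rw [AddSubmonoidClass.coe_finsetSum]
      apply Finset.sum_congr rfl
      intro i hi
      rw [← hyv i hi]
      rfl
    rw [h0]
    have : ∑ i ∈ s, c i • (β i / β i0) = (∑ i ∈ s, c i • β i) / β i0 := by
      rw [Finset.sum_div]
      apply Finset.sum_congr rfl
      intro i _
      rw [Rat.smul_def, Rat.smul_def]
      ring
    rw [this, hsum]
    simp
  have htr := congrArg (Algebra.trace ℚ L) hsumy
  rw [map_sum, map_zero] at htr
  have hone : y i0 = 1 := by
    apply Subtype.ext
    rw [hyv i0 hi0, div_self (hpos i0).ne']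
    rfl
  rw [Finset.sum_eq_single i0] at htr
  · have h1 : Algebra.trace ℚ L (1 : L) = (Module.finrank ℚ L : ℚ) := by
      have := Algebra.trace_algebraMap (S := L) (1 : ℚ)
      rw [map_one] at this
      rw [this]
      simp
    rw [map_smul, hone, h1, smul_eq_mul] at htr
    rcases mul_eq_zero.1 htr with h | h
    · exact h
    · exfalso
      have := Module.finrank_pos (R := ℚ) (M := L)
      have h' : Module.finrank ℚ L = 0 := by exact_mod_cast h
      omega
  · intro i hi hne
    rw [map_smul]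
    obtain ⟨a, ha⟩ := hrat i
    obtain ⟨b, hb⟩ := hrat i0
    have : Algebra.trace ℚ L (y i) = 0 := by
      apply trace_radical L (y i) (by rw [hyv i hi]; exact div_pos (hpos i) (hpos i0)) q hq (a / b)
      · rw [hyv i hi, div_pow, ha, hb]
        push_cast
        rfl
      · intro b'
        rw [hyv i hi]
        exact hratio i i0 hne b'
    rw [this, smul_zero]
  · intro h
    exact absurd hi0 h

/-- Monomials in `q`-th roots of distinct primes, with exponents below `q`. -/
theorem primeRoots_linearIndependent {κ : Type*} [Fintype κ] (p : κ → ℕ)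
    (hp : ∀ k, (p k).Prime) (hinj : Function.Injective p) (q : ℕ) (hq : 0 < q)
    (ρ : κ → ℝ) (hρ : ∀ k, 0 < ρ k) (hρq : ∀ k, (ρ k) ^ q = p k) :
    LinearIndependent ℚ (fun e : κ → Fin q => ∏ k, (ρ k) ^ (e k : ℕ)) := by
  classical
  have hpow : ∀ e : κ → Fin q, (∏ k, (ρ k) ^ (e k : ℕ)) ^ q = ∏ k, (p k : ℝ) ^ (e k : ℕ) := by
    intro e
    rw [← Finset.prod_pow]
    apply Finset.prod_congr rfl
    intro k _
    rw [← hρq k, ← pow_mul, ← pow_mul, mul_comm]
  apply radicals_linearIndependent _ (fun e => Finset.prod_pos fun k _ => pow_pos (hρ k) _) q hq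
  · intro e
    refine ⟨((∏ k, (p k) ^ (e k : ℕ) : ℕ) : ℚ), ?_⟩
    rw [hpow e]
    push_cast
    rfl
  · intro e f hef b hb
    apply hef
    have hbpos : 0 < b := by
      have : (0 : ℝ) < b := by
        rw [← hb]
        exact div_pos (Finset.prod_pos fun k _ => pow_pos (hρ k) _)
          (Finset.prod_pos fun k _ => pow_pos (hρ k) _)
      exact_mod_cast this
    have h1 : (b : ℝ) ^ q * ∏ k, (p k : ℝ) ^ (f k : ℕ) = ∏ k, (p k : ℝ) ^ (e k : ℕ) := by
      rw [← hb, div_pow, hpow, hpow, div_mul_cancel₀]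
      exact (Finset.prod_pos fun k _ => pow_pos (by exact_mod_cast (hp k).pos) _).ne'
    have h2 : b ^ q * ∏ k, (p k : ℚ) ^ (f k : ℕ) = ∏ k, (p k : ℚ) ^ (e k : ℕ) := by
      have : ((b ^ q * ∏ k, (p k : ℚ) ^ (f k : ℕ) : ℚ) : ℝ)
          = ((∏ k, (p k : ℚ) ^ (e k : ℕ) : ℚ) : ℝ) := by push_cast; exact h1
      exact_mod_cast this
    have hval : ∀ (g : κ → Fin q) (k0 : κ), padicValRat (p k0) (∏ k, (p k : ℚ) ^ (g k : ℕ))
        = (g k0 : ℕ) := by
      intro g k0
      have := Fact.mk (hp k0)
      have : (∏ k, (p k : ℚ) ^ (g k : ℕ)) = ((∏ k, (p k) ^ (g k : ℕ) : ℕ) : ℚ) := by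
        push_cast; rfl
      rw [this, padicValRat.of_nat]
      have h3 : padicValNat (p k0) (∏ k, (p k) ^ (g k : ℕ)) = (g k0 : ℕ) := by
        rw [← Nat.factorization_def _ (hp k0), Nat.factorization_prod]
        · rw [Finset.sum_apply']
          rw [Finset.sum_eq_single k0]
          · rw [(hp k0).factorization_pow]
            simp
          · intro k _ hk
            rw [(hp k).factorization_pow]
            rw [Finsupp.single_eq_of_ne]
            intro h
            exact hk (hinj h).symm
          · intro h; exact absurd (Finset.mem_univ k0) h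
        · intro k _
          exact pow_ne_zero _ (hp k).ne_zero
      rw [h3]
    funext k0
    have := Fact.mk (hp k0)
    have h4 := congrArg (padicValRat (p k0)) h2
    have hprodne : ∀ g : κ → Fin q, (∏ k, (p k : ℚ) ^ (g k : ℕ)) ≠ 0 := fun g =>
      (Finset.prod_pos fun k _ => pow_pos (by exact_mod_cast (hp k).pos) _).ne'
    rw [padicValRat.mul (pow_ne_zero _ hbpos.ne') (hprodne f), padicValRat.pow,
      hval, hval] at h4
    have he := (e k0).isLt
    have hf := (f k0).isLt
    set v := padicValRat (p k0) b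
    have hv0 : v = 0 := by
      by_contra hv
      rcases lt_or_gt_of_ne hv with h5 | h5
      · have : (q : ℤ) * v ≤ -q := by nlinarith
        omega
      · have : (q : ℤ) * v ≥ q := by nlinarith
        omega
    rw [hv0] at h4
    apply Fin.ext
    simp at h4
    omega

end Pool.Agent.H636R2.Rig
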